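import Pool.Agent.J6H64.Nut.Exp

/-!
# A fast decision procedure for the certificates `Spec`

`expOk n ρ p q A L x = true` implies `Spec n ρ p q A L x`. The function is meant to be evaluated by
the kernel (`decide +kernel`): natural numbers with `n` digits in base `B = 2 ^ b` are used as
vectors, and the loops over lists are given by recursors. About half a second for `n = 88`.
-/

set_option autoImplicit false

namespace Pool.Agent.J6H64.Nut

open Finset Pool.Agent.TH296.Nut Pool.Agent.J6H28.Nut Pool.Agent.J6H68.Nut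

/-! ### the functions -/

/-- dot product -/
noncomputable def dp (us : List ℕ) : List ℕ → ℕ :=
  List.rec (fun _ => 0) (fun u _ ih ws => List.rec 0 (fun w ws' _ =>
    Nat.add (Nat.mul u w) (ih ws')) ws) us

/-- `∑ bit(a_k) w_k`, the bit at the place of `t = 2 ^ i` -/
noncomputable def cs (t : ℕ) (as : List ℕ) : List ℕ → ℕ :=
  List.rec (fun _ => 0) (fun a _ ih ws => List.rec 0 (fun w ws' _ =>
    Nat.add (Nat.mul (Nat.mod (Nat.div a t) 2) w) (ih ws')) ws) as

/-- `∑ digit_i(l) r_i`, digits in base `16` -/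
noncomputable def dd (l : ℕ) (rs : List ℕ) : ℕ :=
  List.rec (fun _ => 0) (fun r _ ih l =>
    Nat.add (Nat.mul (Nat.mod l 16) r) (ih (Nat.div l 16))) rs l

/-- the list of the `c a ^ k + d b ^ k`, `k < n` -/
noncomputable def geo (a b n : ℕ) (c d : ℕ) : List ℕ :=
  Nat.rec (fun _ _ => []) (fun _ ih c d => Nat.add c d :: ih (Nat.mul c a) (Nat.mul d b)) n c d

/-- the list of the `f (2 ^ k t)`, `k < n` -/
noncomputable def tw (f : ℕ → ℕ) (n : ℕ) (t : ℕ) : List ℕ :=
  Nat.rec (fun _ => []) (fun _ ih t => f t :: ih (Nat.mul t 2)) n t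

/-- `c_i / W = a_i` and bit `i` of `a_i` is `0` -/
noncomputable def chk1 (W : ℕ) (as : List ℕ) : List ℕ → ℕ → Bool :=
  List.rec (fun _ _ => true) (fun a _ ih cs t => List.rec false (fun c cs' _ =>
    and (and (Nat.beq (Nat.div c W) a) (Nat.beq (Nat.mod (Nat.div a t) 2) 0))
      (ih cs' (Nat.mul t 2))) cs) as

/-- all digits of `dd l_j R` are congruent to those of `e B ^ j` modulo `p` -/
noncomputable def chk2 (p : ℕ) (B mask : ℕ) (R : List ℕ) (ls : List ℕ) : ℕ → Bool :=
  List.rec (fun _ => true) (fun l _ ih e =>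
    and (and (Nat.beq (dd l R) (Nat.add e (Nat.mul p (Nat.div (Nat.sub (dd l R) e) p))))
      (Nat.beq (Nat.land (Nat.div (Nat.sub (dd l R) e) p) mask) 0)) (ih (Nat.mul e B))) ls

/-- no entry is `0` -/
noncomputable def chk3 (x : List ℤ) : Bool :=
  List.rec true (fun z _ ih => and (Nat.ble 1 (Int.natAbs z)) ih) x

/-- The decision procedure. -/
noncomputable def expOk (n ρ p q : ℕ) (A L : List ℕ) (x : List ℤ) : Bool :=
  let xp := x.map Int.toNat
  let xn := x.map fun z => (-z).toNat
  let b := Nat.log2 (xp.sum + xn.sum + 2 ^ 31) + 1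
  let B := 2 ^ b
  let W := B ^ n
  let C := tw (fun t => cs t A (geo B 2 n 1 W)) n 1
  let P := C.map fun c => Nat.mod c W
  let ones := (W - 1) / (B - 1)
  Nat.ble 2 n && Nat.ble 2 p && Nat.blt q n && Nat.ble (16 * n) (2 ^ 16) && Nat.ble ρ n &&
  Nat.ble (p * 2 ^ 16) B &&
  Nat.beq A.length n && Nat.beq L.length n && Nat.beq x.length n &&
  chk1 W A C 1 &&
  Nat.beq P.sum (ρ * ones) &&
  chk3 x &&
  Nat.beq (dp xp P) (dp xn P) &&
  chk2 p B ((B - 2 ^ 16) * ones) (P.set q (B ^ q)) L 1

/-! ### lists -/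

theorem dp_eq : ∀ (us ws : List ℕ), us.length ≤ ws.length →
    dp us ws = ∑ k ∈ range us.length, us.getD k 0 * ws.getD k 0
  | [], ws, _ => rfl
  | u :: us, [], h => absurd h (by simp)
  | u :: us, w :: ws, h => by
    have h1 : dp (u :: us) (w :: ws) = u * w + dp us ws := rfl
    rw [h1, dp_eq us ws (by simpa using h), List.length_cons, Finset.sum_range_succ']
    simp only [List.getD_cons_succ, List.getD_cons_zero]
    ring

theorem cs_eq (t : ℕ) : ∀ (as ws : List ℕ), as.length ≤ ws.length →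
    cs t as ws = ∑ k ∈ range as.length, (as.getD k 0 / t % 2) * ws.getD k 0
  | [], ws, _ => rfl
  | u :: us, [], h => absurd h (by simp)
  | u :: us, w :: ws, h => by
    have h1 : cs t (u :: us) (w :: ws) = u / t % 2 * w + cs t us ws := rfl
    rw [h1, cs_eq t us ws (by simpa using h), List.length_cons, Finset.sum_range_succ']
    simp only [List.getD_cons_succ, List.getD_cons_zero]
    ring

theorem dd_eq : ∀ (rs : List ℕ) (l : ℕ),
    dd l rs = ∑ i ∈ range rs.length, (l / 16 ^ i % 16) * rs.getD i 0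
  | [], l => rfl
  | r :: rs, l => by
    have h1 : dd l (r :: rs) = l % 16 * r + dd (l / 16) rs := rfl
    rw [h1, dd_eq rs, List.length_cons, Finset.sum_range_succ']
    simp only [List.getD_cons_succ, List.getD_cons_zero, pow_zero, Nat.div_one]
    rw [add_comm]
    congr 1
    refine Finset.sum_congr rfl fun i _ => ?_
    rw [Nat.div_div_eq_div_mul, ← pow_succ']

theorem geo_length (a b : ℕ) : ∀ (n c d : ℕ), (geo a b n c d).length = n
  | 0, c, d => rfl
  | n + 1, c, d => by
    have h1 : geo a b (n + 1) c d = (c + d) :: geo a b n (c * a) (d * b) := rfl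
    rw [h1, List.length_cons, geo_length a b n]

theorem geo_getD (a b : ℕ) : ∀ (n c d k : ℕ), k < n →
    (geo a b n c d).getD k 0 = c * a ^ k + d * b ^ k
  | 0, c, d, k, h => absurd h (by omega)
  | n + 1, c, d, 0, h => by
    have h1 : geo a b (n + 1) c d = (c + d) :: geo a b n (c * a) (d * b) := rfl
    rw [h1, List.getD_cons_zero]
    simp
  | n + 1, c, d, k + 1, h => by
    have h1 : geo a b (n + 1) c d = (c + d) :: geo a b n (c * a) (d * b) := rfl
    rw [h1, List.getD_cons_succ, geo_getD a b n _ _ k (by omega), pow_succ', pow_succ']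
    ring

theorem tw_length (f : ℕ → ℕ) : ∀ (n t : ℕ), (tw f n t).length = n
  | 0, t => rfl
  | n + 1, t => by
    have h1 : tw f (n + 1) t = f t :: tw f n (t * 2) := rfl
    rw [h1, List.length_cons, tw_length f n]

theorem tw_getD (f : ℕ → ℕ) : ∀ (n t k : ℕ), k < n → (tw f n t).getD k 0 = f (t * 2 ^ k)
  | 0, t, k, h => absurd h (by omega)
  | n + 1, t, 0, h => by
    have h1 : tw f (n + 1) t = f t :: tw f n (t * 2) := rfl
    rw [h1, List.getD_cons_zero]
    simp
  | n + 1, t, k + 1, h => by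
    have h1 : tw f (n + 1) t = f t :: tw f n (t * 2) := rfl
    rw [h1, List.getD_cons_succ, tw_getD f n _ k (by omega), pow_succ']
    ring_nf

theorem chk1_spec (W : ℕ) : ∀ (as cs : List ℕ) (t : ℕ), chk1 W as cs t = true →
    ∀ i < as.length, cs.getD i 0 / W = as.getD i 0 ∧ as.getD i 0 / (t * 2 ^ i) % 2 = 0
  | [], cs, t, _, i, hi => absurd hi (by simp)
  | a :: as, [], t, h, i, hi => by
    have h1 : chk1 W (a :: as) [] t = false := rfl
    rw [h1] at h
    exact absurd h (by simp)
  | a :: as, c :: cs, t, h, i, hi => by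
    have h1 : chk1 W (a :: as) (c :: cs) t =
      ((Nat.beq (c / W) a && Nat.beq (a / t % 2) 0) && chk1 W as cs (t * 2)) := rfl
    rw [h1, Bool.and_eq_true, Bool.and_eq_true] at h
    obtain ⟨⟨h2, h3⟩, h4⟩ := h
    cases i with
    | zero =>
      simp only [List.getD_cons_zero, pow_zero, mul_one]
      exact ⟨Nat.eq_of_beq_eq_true h2, Nat.eq_of_beq_eq_true h3⟩
    | succ i =>
      simp only [List.getD_cons_succ]
      have h5 := chk1_spec W as cs (t * 2) h4 i (by simpa using hi)
      rw [pow_succ', ← mul_assoc]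
      exact h5

theorem chk2_spec (p B mask : ℕ) (R : List ℕ) : ∀ (ls : List ℕ) (e : ℕ),
    chk2 p B mask R ls e = true → ∀ j < ls.length,
    ∃ Q : ℕ, dd (ls.getD j 0) R = e * B ^ j + p * Q ∧ Q &&& mask = 0
  | [], e, _, j, hj => absurd hj (by simp)
  | l :: ls, e, h, j, hj => by
    have h1 : chk2 p B mask R (l :: ls) e =
      ((Nat.beq (dd l R) (e + p * ((dd l R - e) / p)) &&
        Nat.beq (((dd l R - e) / p) &&& mask) 0) && chk2 p B mask R ls (e * B)) := rfl
    rw [h1, Bool.and_eq_true, Bool.and_eq_true] at h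
    obtain ⟨⟨h2, h3⟩, h4⟩ := h
    cases j with
    | zero =>
      simp only [List.getD_cons_zero, pow_zero, mul_one]
      exact ⟨_, Nat.eq_of_beq_eq_true h2, Nat.eq_of_beq_eq_true h3⟩
    | succ j =>
      simp only [List.getD_cons_succ]
      obtain ⟨Q, h5, h6⟩ := chk2_spec p B mask R ls (e * B) h4 j (by simpa using hj)
      refine ⟨Q, ?_, h6⟩
      rw [h5, pow_succ', ← mul_assoc]

theorem chk3_spec : ∀ (x : List ℤ), chk3 x = true → ∀ i < x.length, x.getD i 0 ≠ 0
  | [], _, i, hi => absurd hi (by simp)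
  | z :: x, h, i, hi => by
    have h1 : chk3 (z :: x) = (Nat.ble 1 z.natAbs && chk3 x) := rfl
    rw [h1, Bool.and_eq_true] at h
    cases i with
    | zero =>
      have h2 := Nat.le_of_ble_eq_true h.1
      rw [List.getD_cons_zero]
      intro e
      rw [e] at h2
      simp at h2
    | succ i =>
      rw [List.getD_cons_succ]
      exact chk3_spec x h.2 i (by simpa using hi)

theorem sum_getD : ∀ l : List ℕ, l.sum = ∑ i ∈ range l.length, l.getD i 0
  | [] => rfl
  | a :: l => by
    rw [List.sum_cons, sum_getD l, List.length_cons, Finset.sum_range_succ']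
    simp only [List.getD_cons_succ, List.getD_cons_zero]
    ring

theorem set_getD (l : List ℕ) (q v i : ℕ) (hq : q < l.length) :
    (l.set q v).getD i 0 = if i = q then v else l.getD i 0 := by
  rw [List.getD_eq_getElem?_getD, List.getElem?_set, List.getD_eq_getElem?_getD]
  by_cases h : i = q
  · rw [if_pos h, if_pos h.symm, if_pos hq]
    rfl
  · rw [if_neg h, if_neg (fun hh => h hh.symm)]

/-! ### digits -/

/-- the number with the digits `f k` in base `B` -/
def pk (B : ℕ) (f : ℕ → ℕ) (n : ℕ) : ℕ := ∑ k ∈ range n, f k * B ^ k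

theorem pk_lt {B : ℕ} {f : ℕ → ℕ} : ∀ {n : ℕ}, (∀ k < n, f k < B) → pk B f n < B ^ n
  | 0, _ => by simp [pk]
  | n + 1, h => by
    have h1 := pk_lt (n := n) fun k hk => h k (by omega)
    have h2 := h n (by omega)
    have h3 : pk B f (n + 1) = pk B f n + f n * B ^ n := Finset.sum_range_succ _ _
    rw [h3, pow_succ]
    have h4 : (f n + 1) * B ^ n ≤ B * B ^ n := Nat.mul_le_mul_right _ h2
    nlinarith

theorem pk_digit {B : ℕ} {f : ℕ → ℕ} {n : ℕ} (h : ∀ k < n, f k < B) {j : ℕ} (hj : j < n) :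
    pk B f n / B ^ j % B = f j := by
  have hB : 0 < B := lt_of_le_of_lt (Nat.zero_le _) (h j hj)
  have h1 : pk B f n = pk B f j + B ^ j * (f j + B * ∑ k ∈ range (n - j - 1),
      f (j + 1 + k) * B ^ k) := by
    obtain ⟨m, rfl⟩ : ∃ m, n = j + 1 + m := ⟨n - j - 1, by omega⟩
    have h2 : j + 1 + m - j - 1 = m := by omega
    rw [h2]
    unfold pk
    rw [Finset.sum_range_add, Finset.sum_range_succ, Finset.mul_sum, mul_add, Finset.mul_sum]
    have h3 : ∀ k, f (j + 1 + k) * B ^ (j + 1 + k) = B ^ j * (B * (f (j + 1 + k) * B ^ k)) := by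
      intro k
      rw [pow_add, pow_succ]
      ring
    simp only [h3]
    ring
  have h2 : pk B f j < B ^ j := pk_lt fun k hk => h k (by omega)
  rw [h1, Nat.add_mul_div_left _ _ (by positivity), Nat.div_eq_of_lt h2, zero_add,
    Nat.add_mul_mod_self_left, Nat.mod_eq_of_lt (h j hj)]

theorem pk_inj {B : ℕ} {f g : ℕ → ℕ} {n : ℕ} (hf : ∀ k < n, f k < B) (hg : ∀ k < n, g k < B)
    (h : pk B f n = pk B g n) {j : ℕ} (hj : j < n) : f j = g j := by
  rw [← pk_digit hf hj, h, pk_digit hg hj]

theorem pk_of (B Q : ℕ) : ∀ n : ℕ, pk B (fun k => Q / B ^ k % B) n = Q % B ^ n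
  | 0 => by simp [pk, Nat.mod_one]
  | n + 1 => by
    have h3 : pk B (fun k => Q / B ^ k % B) (n + 1) =
      pk B (fun k => Q / B ^ k % B) n + (Q / B ^ n % B) * B ^ n := Finset.sum_range_succ _ _
    rw [h3, pk_of B Q n, Nat.mod_pow_succ, mul_comm]

/-- the mask -/
theorem land_lt {b m n Q k : ℕ} (hm : m ≤ b) (hk : k < n)
    (h : Q &&& ((2 ^ b - 2 ^ m) * ∑ i ∈ range n, (2 ^ b) ^ i) = 0) :
    Q / (2 ^ b) ^ k % 2 ^ b < 2 ^ m := by
  have hle : 2 ^ m ≤ 2 ^ b := Nat.pow_le_pow_right (by norm_num) hm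
  have hpos : 0 < 2 ^ m := by positivity
  have hmask : (2 ^ b - 2 ^ m) * ∑ i ∈ range n, (2 ^ b) ^ i =
      pk (2 ^ b) (fun _ => 2 ^ b - 2 ^ m) n := by
    unfold pk
    rw [Finset.mul_sum]
  have h1 : (Q / (2 ^ b) ^ k % 2 ^ b) &&& (2 ^ b - 2 ^ m) = 0 := by
    have h2 : ((Q &&& pk (2 ^ b) (fun _ => 2 ^ b - 2 ^ m) n) / 2 ^ (b * k)) % 2 ^ b = 0 := by
      rw [← hmask, h]
      simp
    rw [Nat.and_div_two_pow, Nat.and_mod_two_pow, pow_mul] at h2
    rw [pk_digit (fun _ _ => by omega) hk] at h2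
    exact h2
  apply Nat.lt_pow_two_of_testBit
  intro i hi
  by_cases hib : i < b
  · have h3 := congrArg (fun z => Nat.testBit z i) h1
    simp only [Nat.testBit_and, Nat.zero_testBit] at h3
    have h4 : (2 ^ b - 2 ^ m).testBit i = true := by
      have h5 : 2 ^ b - 2 ^ m = (2 ^ (b - m) - 1) * 2 ^ m := by
        rw [Nat.sub_mul, one_mul, ← pow_add, Nat.sub_add_cancel hm]
      rw [h5, Nat.testBit_mul_two_pow, Nat.testBit_two_pow_sub_one]
      simp only [Bool.and_eq_true, decide_eq_true_eq]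
      omega
    rw [h4, Bool.and_true] at h3
    exact h3
  · apply Nat.testBit_lt_two_pow
    have h5 : Q / (2 ^ b) ^ k % 2 ^ b < 2 ^ b := Nat.mod_lt _ (by positivity)
    exact h5.trans_le (Nat.pow_le_pow_right (by norm_num) (by omega))

/-! ### soundness -/

theorem map_getD {α : Type} (l : List α) (d : α) (f : α → ℕ) (h0 : f d = 0) (i : ℕ) :
    (l.map f).getD i 0 = f (l.getD i d) := by
  have h1 := List.getD_map l d (n := i) f
  rw [h0] at h1
  exact h1

/-- a combination of numbers given by their digits -/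
theorem pk_sum (B n m : ℕ) (c : ℕ → ℕ) (f : ℕ → ℕ → ℕ) :
    ∑ i ∈ range m, c i * pk B (fun k => f i k) n = pk B (fun k => ∑ i ∈ range m, c i * f i k) n := by
  unfold pk
  simp only [Finset.mul_sum, Finset.sum_mul]
  rw [Finset.sum_comm]
  refine Finset.sum_congr rfl fun k _ => Finset.sum_congr rfl fun i _ => ?_
  ring

theorem core {n ρ p q b B W : ℕ} {A L : List ℕ} {x : List ℤ} (hB : B = 2 ^ b) (hW : W = B ^ n)
    (c1 : 2 ≤ n) (c2 : 2 ≤ p) (c3 : q < n) (c4 : 16 * n ≤ 2 ^ 16) (c5 : ρ ≤ n)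
    (c6 : p * 2 ^ 16 ≤ B) (hA : A.length = n) (hL : L.length = n) (hx : x.length = n)
    {C P : List ℕ} (hC : C = tw (fun t => cs t A (geo B 2 n 1 W)) n 1)
    (hP : P = C.map fun c => Nat.mod c W) (d1 : chk1 W A C 1 = true)
    (d2 : P.sum = ρ * ((W - 1) / (B - 1))) (d3 : chk3 x = true)
    (d4 : dp (x.map Int.toNat) P = dp (x.map fun z => (-z).toNat) P)
    (hX : (x.map Int.toNat).sum + (x.map fun z => (-z).toNat).sum < B)
    (d5 : chk2 p B ((B - 2 ^ 16) * ((W - 1) / (B - 1))) (P.set q (B ^ q)) L 1 = true) :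
    Spec n ρ p q A L x := by
  have hB17 : 2 ^ 17 ≤ B := by
    calc 2 ^ 17 = 2 * 2 ^ 16 := by norm_num
      _ ≤ p * 2 ^ 16 := Nat.mul_le_mul_right _ c2
      _ ≤ B := c6
  have hb : 16 ≤ b := by
    rw [hB] at hB17
    have := (Nat.pow_le_pow_iff_right (by norm_num : 1 < 2)).1 hB17
    omega
  have hnB : n < B := by omega
  have hones : (W - 1) / (B - 1) = ∑ k ∈ range n, B ^ k := by
    rw [hW, Nat.geomSum_eq (by omega) n]
  have hbt1 : ∀ r j, bt r j ≤ 1 := fun r j => by
    rcases bt_zo r j with h | h <;> omega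
  -- the columns
  have hCg : ∀ i < n, C.getD i 0 = pk B (fun k => bt (A.getD k 0) i) n +
      W * pk 2 (fun k => bt (A.getD k 0) i) n := by
    intro i hi
    rw [hC, tw_getD _ n 1 i hi]
    simp only [one_mul]
    rw [cs_eq _ A _ (by rw [geo_length, hA]), hA]
    unfold pk
    rw [Finset.mul_sum, ← Finset.sum_add_distrib]
    refine Finset.sum_congr rfl fun k hk => ?_
    rw [geo_getD B 2 n 1 W k (Finset.mem_range.1 hk)]
    unfold bt
    ring
  have hlt : ∀ i, pk B (fun k => bt (A.getD k 0) i) n < W := by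
    intro i
    rw [hW]
    exact pk_lt fun k _ => lt_of_le_of_lt (hbt1 _ _) (by omega)
  have hWpos : 0 < W := lt_of_le_of_lt (Nat.zero_le _) (hlt 0)
  have hrow : ∀ i < n, pk 2 (fun k => bt (A.getD k 0) i) n = A.getD i 0 := by
    intro i hi
    have h1 := (chk1_spec W A C 1 d1 i (by rw [hA]; exact hi)).1
    rw [hCg i hi, Nat.add_mul_div_left _ _ hWpos, Nat.div_eq_of_lt (hlt i), zero_add] at h1
    exact h1
  have hsym : ∀ i < n, ∀ j < n, bt (A.getD i 0) j = bt (A.getD j 0) i := by
    intro i hi j hj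
    have h1 : bt (A.getD i 0) j = A.getD i 0 / 2 ^ j % 2 := rfl
    rw [h1, ← hrow i hi, pk_digit (fun k _ => lt_of_le_of_lt (hbt1 _ _) (by norm_num)) hj]
  have hPl : P.length = n := by rw [hP, List.length_map, hC, tw_length]
  have hPg : ∀ i < n, P.getD i 0 = pk B (fun k => bt (A.getD k 0) i) n := by
    intro i hi
    have h0 : (fun c => Nat.mod c W) 0 = 0 := Nat.zero_mod W
    rw [hP, map_getD C 0 (fun c => Nat.mod c W) h0 i]
    change C.getD i 0 % W = _
    rw [hCg i hi, Nat.add_mul_mod_self_left, Nat.mod_eq_of_lt (hlt i)]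
  refine ⟨c1, c2, c3, hsym, ?_, ?_, fun i hi => chk3_spec x d3 i (by rw [hx]; exact hi), ?_, ?_⟩
  · -- the diagonal
    intro i hi
    have h1 := (chk1_spec W A C 1 d1 i (by rw [hA]; exact hi)).2
    rw [one_mul] at h1
    exact h1
  · -- the row sums
    intro i hi
    have h1 : pk B (fun k => ∑ j ∈ range n, 1 * bt (A.getD k 0) j) n = pk B (fun _ => ρ) n := by
      rw [← pk_sum B n n (fun _ => 1) (fun j k => bt (A.getD k 0) j)]
      have h2 : ∑ j ∈ range n, 1 * pk B (fun k => bt (A.getD k 0) j) n = P.sum := by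
        rw [sum_getD, hPl]
        refine Finset.sum_congr rfl fun j hj => ?_
        rw [one_mul, hPg j (Finset.mem_range.1 hj)]
      rw [h2, d2, hones]
      unfold pk
      rw [Finset.mul_sum]
    have h3 : ∀ k, ∑ j ∈ range n, 1 * bt (A.getD k 0) j ≤ n := by
      intro k
      calc ∑ j ∈ range n, 1 * bt (A.getD k 0) j ≤ ∑ _j ∈ range n, 1 :=
            Finset.sum_le_sum fun j _ => by rw [one_mul]; exact hbt1 _ _
        _ = n := by simp
    have h4 := pk_inj (fun k _ => lt_of_le_of_lt (h3 k) hnB)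
      (fun k _ => lt_of_le_of_lt c5 hnB) h1 hi
    simp only [one_mul] at h4
    exact h4
  · -- the kernel vector
    intro i hi
    have hdig : ∀ f : ℤ → ℕ, f 0 = 0 → (x.map f).sum < B →
        dp (x.map f) P = pk B (fun k => ∑ j ∈ range n, f (x.getD j 0) * bt (A.getD k 0) j) n ∧
        ∀ k, ∑ j ∈ range n, f (x.getD j 0) * bt (A.getD k 0) j < B := by
      intro f hf hs
      have hlen : (x.map f).length = n := by rw [List.length_map, hx]
      constructor
      · rw [dp_eq _ _ (by rw [hlen, hPl]), hlen,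
          ← pk_sum B n n (fun j => f (x.getD j 0)) (fun j k => bt (A.getD k 0) j)]
        refine Finset.sum_congr rfl fun j hj => ?_
        rw [map_getD x 0 f hf, hPg j (Finset.mem_range.1 hj)]
      · intro k
        refine lt_of_le_of_lt ?_ hs
        rw [sum_getD, hlen]
        refine Finset.sum_le_sum fun j _ => ?_
        rw [map_getD x 0 f hf]
        calc f (x.getD j 0) * bt (A.getD k 0) j ≤ f (x.getD j 0) * 1 :=
              Nat.mul_le_mul_left _ (hbt1 _ _)
          _ = f (x.getD j 0) := mul_one _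
    obtain ⟨e1, e2⟩ := hdig Int.toNat rfl (by omega)
    obtain ⟨e3, e4⟩ := hdig (fun z => (-z).toNat) (by simp) (by omega)
    rw [e1, e3] at d4
    have h1 := pk_inj (fun k _ => e2 k) (fun k _ => e4 k) d4 hi
    have h2 : ((∑ j ∈ range n, (x.getD j 0).toNat * bt (A.getD i 0) j : ℕ) : ℤ) =
        ((∑ j ∈ range n, (-(x.getD j 0)).toNat * bt (A.getD i 0) j : ℕ) : ℤ) := by
      exact_mod_cast h1
    have h3 : ∑ j ∈ range n, ((bt (A.getD i 0) j : ℕ) : ℤ) * x.getD j 0 =
        ((∑ j ∈ range n, (x.getD j 0).toNat * bt (A.getD i 0) j : ℕ) : ℤ) -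
        ((∑ j ∈ range n, (-(x.getD j 0)).toNat * bt (A.getD i 0) j : ℕ) : ℤ) := by
      push_cast
      rw [← Finset.sum_sub_distrib]
      refine Finset.sum_congr rfl fun j _ => ?_
      have h4 := Int.toNat_sub_toNat_neg (x.getD j 0)
      rw [← sub_mul]
      have h5 : (((x.getD j 0).toNat : ℕ) : ℤ) - (((-(x.getD j 0)).toNat : ℕ) : ℤ) =
          x.getD j 0 := h4
      rw [h5]
      ring
    rw [h3, h2, sub_self]
  · -- the inverse
    intro j hj k hk
    obtain ⟨Q, g1, g2⟩ := chk2_spec p B _ _ L 1 d5 j (by rw [hL]; exact hj)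
    have hRl : (P.set q (B ^ q)).length = n := by rw [List.length_set, hPl]
    set M : ℕ → ℕ → ℕ := fun i k => if i = q then (if k = q then 1 else 0) else
      bt (A.getD i 0) k with hM
    have hM1 : ∀ i k, M i k ≤ 1 := by
      intro i k
      simp only [hM]
      split_ifs
      · exact le_rfl
      · exact Nat.zero_le _
      · exact hbt1 _ _
    have hRg : ∀ i < n, (P.set q (B ^ q)).getD i 0 = pk B (fun k => M i k) n := by
      intro i hi
      rw [set_getD P q _ i (by rw [hPl]; exact c3)]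
      by_cases hiq : i = q
      · rw [if_pos hiq]
        unfold pk
        simp only [hM, if_pos hiq]
        rw [Finset.sum_eq_single q]
        · simp
        · intro k _ hkq
          rw [if_neg hkq, zero_mul]
        · intro hq
          exact absurd (Finset.mem_range.2 c3) hq
      · rw [if_neg hiq, hPg i hi]
        unfold pk
        refine Finset.sum_congr rfl fun k hk => ?_
        simp only [hM, if_neg hiq]
        rw [hsym k (Finset.mem_range.1 hk) i hi]
    have hdd : dd (L.getD j 0) (P.set q (B ^ q)) =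
        pk B (fun k => ∑ i ∈ range n, dg (L.getD j 0) i * M i k) n := by
      rw [dd_eq, hRl, ← pk_sum B n n (fun i => dg (L.getD j 0) i) (fun i k => M i k)]
      refine Finset.sum_congr rfl fun i hi => ?_
      rw [hRg i (Finset.mem_range.1 hi)]
      rfl
    have hs : ∀ k, ∑ i ∈ range n, dg (L.getD j 0) i * M i k < B := by
      intro k
      have h1 : ∑ i ∈ range n, dg (L.getD j 0) i * M i k ≤ ∑ _i ∈ range n, 15 := by
        refine Finset.sum_le_sum fun i _ => ?_
        have h2 : dg (L.getD j 0) i ≤ 15 := by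
          unfold dg
          omega
        calc dg (L.getD j 0) i * M i k ≤ 15 * 1 := Nat.mul_le_mul h2 (hM1 i k)
          _ = 15 := by norm_num
      rw [Finset.sum_const, Finset.card_range, smul_eq_mul] at h1
      omega
    have hQ : Q < B ^ n := by
      have h1 : p * Q ≤ dd (L.getD j 0) (P.set q (B ^ q)) := by
        rw [g1]
        exact Nat.le_add_left _ _
      have h2 : dd (L.getD j 0) (P.set q (B ^ q)) < B ^ n := by
        rw [hdd]
        exact pk_lt fun k _ => hs k
      have h3 : Q ≤ p * Q := Nat.le_mul_of_pos_left _ (by omega)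
      omega
    have hQk : ∀ k < n, Q / B ^ k % B < 2 ^ 16 := by
      intro k hk
      rw [hones, hB] at g2
      rw [hB]
      exact land_lt hb hk g2
    have h1 : pk B (fun k => ∑ i ∈ range n, dg (L.getD j 0) i * M i k) n =
        pk B (fun k => p * (Q / B ^ k % B) + if j = k then 1 else 0) n := by
      rw [← hdd, g1]
      have h2 : p * Q = p * pk B (fun k => Q / B ^ k % B) n := by
        rw [pk_of, Nat.mod_eq_of_lt hQ]
      rw [h2]
      unfold pk
      simp only [add_mul]
      rw [Finset.sum_add_distrib, Finset.mul_sum, add_comm]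
      congr 1
      · refine Finset.sum_congr rfl fun k _ => ?_
        ring
      · rw [Finset.sum_eq_single j]
        · simp
        · intro k _ hkj
          rw [if_neg (fun hh => hkj hh.symm), zero_mul]
        · intro hjn
          exact absurd (Finset.mem_range.2 hj) hjn
    have h2 := pk_inj (fun k _ => hs k) (fun k hk => by
      have h3 := hQk k hk
      have h4 : p * (Q / B ^ k % B) ≤ p * (2 ^ 16 - 1) := Nat.mul_le_mul_left _ (by omega)
      have h5 : p * (2 ^ 16 - 1) + p = p * 2 ^ 16 := by ring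
      split_ifs <;> omega) h1 hk
    have h6 : (∑ i ∈ range n, dg (L.getD j 0) i *
        (if i = q then (if k = q then 1 else 0) else bt (A.getD i 0) k)) =
        p * (Q / B ^ k % B) + if j = k then 1 else 0 := h2
    rw [h6, Nat.mul_add_mod]
    split_ifs
    · exact Nat.mod_eq_of_lt (by omega)
    · exact Nat.zero_mod _

/-- Soundness of the decision procedure. -/
theorem expOk_spec {n ρ p q : ℕ} {A L : List ℕ} {x : List ℤ}
    (h : expOk n ρ p q A L x = true) : Spec n ρ p q A L x := by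
  unfold expOk at h
  simp only [Bool.and_eq_true] at h
  obtain ⟨⟨⟨⟨⟨⟨⟨⟨⟨⟨⟨⟨⟨c1, c2⟩, c3⟩, c4⟩, c5⟩, c6⟩, hA⟩, hL⟩, hx⟩, d1⟩, d2⟩, d3⟩, d4⟩, d5⟩ := h
  refine core rfl rfl (Nat.le_of_ble_eq_true c1) (Nat.le_of_ble_eq_true c2) ?_
    (Nat.le_of_ble_eq_true c4) (Nat.le_of_ble_eq_true c5) (Nat.le_of_ble_eq_true c6)
    (Nat.eq_of_beq_eq_true hA) (Nat.eq_of_beq_eq_true hL) (Nat.eq_of_beq_eq_true hx) rfl rfl d1
    (Nat.eq_of_beq_eq_true d2) d3 (Nat.eq_of_beq_eq_true d4) ?_ d5
  · exact Nat.le_of_ble_eq_true c3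
  · refine lt_of_le_of_lt ?_ Nat.lt_log2_self
    omega

/-- The decision procedure for a regular nut graph. -/
theorem good_of_expOk {n ρ p q : ℕ} {A L : List ℕ} {x : List ℤ}
    (h : expOk n ρ p q A L x = true) : Good ρ n :=
  st_exp n ρ p q A L x (expOk_spec h)

/-- The decision procedure with an edge `u v` on which the kernel vector is constant. -/
theorem goodE_of_expOk {n ρ p q : ℕ} {A L : List ℕ} {x : List ℤ} (u v : ℕ)
    (h : expOk n ρ p q A L x = true) (hu : u < n) (hv : v < n) (huv : bt (A.getD u 0) v = 1)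
    (hx : x.getD u 0 = x.getD v 0) : GoodE ρ 1 n :=
  st_expE n ρ p q u v A L x (expOk_spec h) hu hv huv hx

end Pool.Agent.J6H64.Nut
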