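import Pool.Agent.J6H68.Nut.Stm

/-!
# Explicit regular nut graphs from certificates: soundness of `Spec`
-/

set_option autoImplicit false

namespace Pool.Agent.J6H64.Nut

open Finset Pool.Agent.TH296.Nut Pool.Agent.J6H28.Nut Pool.Agent.J6H68.Nut

/-- An integral matrix with a left inverse modulo `p` has trivial real kernel. -/
theorem ker_zero {n p : ℕ} (hp : 2 ≤ p) (L M : Matrix (Fin n) (Fin n) ℤ)
    (h : L.map (Int.castRingHom (ZMod p)) * M.map (Int.castRingHom (ZMod p)) = 1)
    (y : Fin n → ℝ) (hy : ∀ i, ∑ k, (M i k : ℝ) * y k = 0) : y = 0 := by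
  have : Fact (1 < p) := ⟨by omega⟩
  have hdet : M.det ≠ 0 := by
    intro h0
    have h1 := congrArg Matrix.det h
    rw [Matrix.det_mul, Matrix.det_one] at h1
    have h2 : (M.map (Int.castRingHom (ZMod p))).det = 0 := by
      have h3 := (Int.castRingHom (ZMod p)).map_det M
      rw [h0, map_zero] at h3
      exact h3.symm
    rw [h2, mul_zero] at h1
    exact zero_ne_one h1
  have hdetR : (M.map (Int.castRingHom ℝ)).det ≠ 0 := by
    have h3 := (Int.castRingHom ℝ).map_det M
    have h4 : (M.map (Int.castRingHom ℝ)).det = ((M.det : ℤ) : ℝ) := h3.symm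
    rw [h4]
    exact_mod_cast hdet
  apply Matrix.eq_zero_of_mulVec_eq_zero hdetR
  funext i
  exact hy i

/-- bits are `0` or `1` -/
theorem bt_zo (r j : ℕ) : bt r j = 0 ∨ bt r j = 1 := by
  unfold bt
  omega

/-- The certificate gives the weights. -/
theorem spec_nw {n ρ p q : ℕ} {A L : List ℕ} {x : List ℤ} (h : Spec n ρ p q A L x) :
    NW (Fin n) ρ (fun i j => ((bt (A.getD i 0) j : ℕ) : ℝ))
      (fun i => ((x.getD i 0 : ℤ) : ℝ)) := by
  obtain ⟨c0, cp, cq, c1, c2, c3, c4, c5, c6⟩ := h
  have hx : ∀ i : Fin n, ((x.getD i 0 : ℤ) : ℝ) ≠ 0 := fun i => by exact_mod_cast c4 i i.2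
  refine ⟨?_, ?_, ?_, ?_, hx, ?_, ?_⟩
  · intro i j
    rcases bt_zo (A.getD i 0) j with e | e
    · left; rw [e]; simp
    · right; rw [e]; simp
  · intro i j
    rw [c1 i i.2 j j.2]
  · intro i
    rw [c2 i i.2]
    simp
  · intro i
    have h1 := c3 i i.2
    rw [← Fin.sum_univ_eq_sum_range (fun j => bt (A.getD i 0) j)] at h1
    exact_mod_cast h1
  · intro i
    have h1 := c5 i i.2
    rw [← Fin.sum_univ_eq_sum_range (fun j => ((bt (A.getD i 0) j : ℕ) : ℤ) * x.getD j 0)] at h1
    exact_mod_cast h1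
  · intro y hy
    set Q : Fin n := ⟨q, cq⟩ with hQ
    refine ⟨y Q / ((x.getD q 0 : ℤ) : ℝ), ?_⟩
    have hxq : ((x.getD q 0 : ℤ) : ℝ) ≠ 0 := hx Q
    let M : Matrix (Fin n) (Fin n) ℤ := fun i k =>
      if i = Q then (if k = Q then 1 else 0) else (bt (A.getD i 0) k : ℤ)
    let N : Matrix (Fin n) (Fin n) ℤ := fun j i => (dg (L.getD j 0) i : ℤ)
    have hinv : N.map (Int.castRingHom (ZMod p)) * M.map (Int.castRingHom (ZMod p)) = 1 := by
      ext j k
      have h1 := c6 j j.2 k k.2
      rw [← Fin.sum_univ_eq_sum_range (fun i => dg (L.getD j 0) i *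
        (if i = q then (if (k : ℕ) = q then 1 else 0) else bt (A.getD i 0) k))] at h1
      have h2 : ((∑ i : Fin n, dg (L.getD j 0) i *
        (if (i : ℕ) = q then (if (k : ℕ) = q then 1 else 0) else bt (A.getD i 0) k) : ℕ) :
          ZMod p) = if j = k then 1 else 0 := by
        have h3 : (((∑ i : Fin n, dg (L.getD j 0) i *
          (if (i : ℕ) = q then (if (k : ℕ) = q then 1 else 0) else bt (A.getD i 0) k)) % p : ℕ) :
            ZMod p) = if j = k then 1 else 0 := by
          rw [h1]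
          by_cases hjk : j = k
          · rw [if_pos hjk, if_pos (by rw [hjk])]
            simp
          · rw [if_neg hjk, if_neg (fun hh => hjk (Fin.ext hh))]
            simp
        rw [ZMod.natCast_mod] at h3
        exact h3
      rw [Matrix.mul_apply, Matrix.one_apply, ← h2, Nat.cast_sum]
      refine Finset.sum_congr rfl fun i _ => ?_
      change (((dg (L.getD j 0) i : ℤ)) : ZMod p) *
        ((if i = Q then (if k = Q then 1 else 0) else (bt (A.getD i 0) k : ℤ) : ℤ) : ZMod p) = _
      by_cases hi : i = Q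
      · have hi' : (i : ℕ) = q := by rw [hi]
        rw [if_pos hi, if_pos hi']
        by_cases hk : k = Q
        · have hk' : (k : ℕ) = q := by rw [hk]
          rw [if_pos hk, if_pos hk']
          push_cast
          rfl
        · have hk' : ¬ (k : ℕ) = q := fun hh => hk (Fin.ext hh)
          rw [if_neg hk, if_neg hk']
          push_cast
          rfl
      · have hi' : ¬ (i : ℕ) = q := fun hh => hi (Fin.ext hh)
        rw [if_neg hi, if_neg hi']
        push_cast
        rfl
    have hz := ker_zero cp N M hinv (fun k => y k - y Q / ((x.getD q 0 : ℤ) : ℝ) *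
      ((x.getD k 0 : ℤ) : ℝ)) (by
        intro i
        by_cases hi : i = Q
        · have h1 : ∀ k, ((M i k : ℤ) : ℝ) * (y k - y Q / ((x.getD q 0 : ℤ) : ℝ) *
              ((x.getD k 0 : ℤ) : ℝ)) = if k = Q then 0 else 0 := by
            intro k
            simp only [M, if_pos hi]
            by_cases hk : k = Q
            · rw [if_pos hk, if_pos hk, hk]
              simp only [hQ]
              rw [div_mul_cancel₀ _ hxq]
              simp
            · rw [if_neg hk, if_neg hk]
              simp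
          rw [Finset.sum_congr rfl fun k _ => h1 k]
          simp
        · have h1 : ∀ k, ((M i k : ℤ) : ℝ) * (y k - y Q / ((x.getD q 0 : ℤ) : ℝ) *
              ((x.getD k 0 : ℤ) : ℝ)) = ((bt (A.getD i 0) k : ℕ) : ℝ) * y k -
              y Q / ((x.getD q 0 : ℤ) : ℝ) *
                (((bt (A.getD i 0) k : ℕ) : ℝ) * ((x.getD k 0 : ℤ) : ℝ)) := by
            intro k
            simp only [M, if_neg hi]
            push_cast
            ring
          rw [Finset.sum_congr rfl fun k _ => h1 k, Finset.sum_sub_distrib, ← Finset.mul_sum,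
            hy i]
          have h2 := c5 i i.2
          rw [← Fin.sum_univ_eq_sum_range
            (fun j => ((bt (A.getD i 0) j : ℕ) : ℤ) * x.getD j 0)] at h2
          have h3 : ∑ k : Fin n, ((bt (A.getD i 0) k : ℕ) : ℝ) * ((x.getD k 0 : ℤ) : ℝ) = 0 := by
            exact_mod_cast h2
          rw [h3, mul_zero, sub_zero])
    intro j
    have h1 := congrFun hz j
    simp only [Pi.zero_apply] at h1
    linarith

/-- Module EXP. -/
theorem st_exp : StExp := by
  intro n ρ p q A L x h
  exact ⟨Fin n, inferInstance, _, _, spec_nw h, Fintype.card_fin n⟩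

/-- Module EXPE. -/
theorem st_expE : StExpE := by
  intro n ρ p q u v A L x h hu hv huv hx
  have hW := spec_nw h
  obtain ⟨c0, cp, cq, c1, c2, c3, c4, c5, c6⟩ := h
  have hxu : ((x.getD u 0 : ℤ) : ℝ) ≠ 0 := by exact_mod_cast c4 u hu
  have hne : u ≠ v := by
    intro e
    rw [← e, c2 u hu] at huv
    exact zero_ne_one huv
  refine ⟨Fin n, inferInstance, fun i j => ((bt (A.getD i 0) j : ℕ) : ℝ),
    fun i => ((x.getD i 0 : ℤ) : ℝ) / ((x.getD u 0 : ℤ) : ℝ),
    fun s => if s.2 then ⟨v, hv⟩ else ⟨u, hu⟩, ?_, Fintype.card_fin n, ?_, ?_, ?_⟩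
  · refine ⟨hW.zo, hW.symm, hW.diag, hW.deg, fun i => div_ne_zero (hW.nz i) hxu, ?_, ?_⟩
    · intro i
      have h1 := hW.ker i
      have h2 : ∀ w : Fin n, ((bt (A.getD i 0) w : ℕ) : ℝ) *
          (((x.getD w 0 : ℤ) : ℝ) / ((x.getD u 0 : ℤ) : ℝ)) =
          (((bt (A.getD i 0) w : ℕ) : ℝ) * ((x.getD w 0 : ℤ) : ℝ)) / ((x.getD u 0 : ℤ) : ℝ) := by
        intro w
        ring
      rw [Finset.sum_congr rfl fun w _ => h2 w, ← Finset.sum_div, h1, zero_div]
    · intro y hy
      obtain ⟨c, hc⟩ := hW.uniq y hy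
      refine ⟨c * ((x.getD u 0 : ℤ) : ℝ), fun i => ?_⟩
      rw [hc i]
      field_simp
  · rintro ⟨a, b⟩ ⟨a', b'⟩ hab
    have ha : a = a' := Subsingleton.elim _ _
    subst ha
    cases b <;> cases b'
    · rfl
    · exfalso
      simp only [Bool.false_eq_true, if_false, if_true, Fin.mk.injEq] at hab
      exact hne hab
    · exfalso
      simp only [Bool.false_eq_true, if_false, if_true, Fin.mk.injEq] at hab
      exact hne hab.symm
    · rfl
  · rintro ⟨a, b⟩
    cases b
    · show ((bt (A.getD u 0) v : ℕ) : ℝ) = 1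
      rw [huv, Nat.cast_one]
    · show ((bt (A.getD v 0) u : ℕ) : ℝ) = 1
      rw [← c1 u hu v hv, huv, Nat.cast_one]
  · rintro ⟨a, b⟩
    cases b
    · show ((x.getD u 0 : ℤ) : ℝ) / ((x.getD u 0 : ℤ) : ℝ) = 1
      exact div_self hxu
    · show ((x.getD v 0 : ℤ) : ℝ) / ((x.getD u 0 : ℤ) : ℝ) = 1
      rw [← hx]
      exact div_self hxu

end Pool.Agent.J6H64.Nut
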